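import Pool.Agent.MP_f00251_lc.Iface3
import Pool.Agent.MP_f00251_lc.Mem.Verifier

-- ======== part 0: formerly Pool.Agent.MP_f00251_lc.Pol.Base
section MrgPart0

/-!
Polynomial time for the genome of a chord system.
-/

set_option autoImplicit false

namespace Pool.Agent.MP_f00251_lc

open Pool.Agent.PolyT Pool.Agent.H82 N487b59b3

namespace Pol

variable {α β : Type} [N487b59b3 α] [N487b59b3 β]

/-- The code pulled back along an injection. -/
@[instance_reducible]
noncomputable def ofInj {γ : Type} (f : γ → β) (hf : Function.Injective f) : N487b59b3 γ :=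
  ofLeftInverse f (Function.partialInv f) (Function.partialInv_left hf)

@[fun_prop] theorem p_ite {c : α → Prop} {inst : ∀ a, Decidable (c a)} {f g : α → β}
    (hc : Poly fun a => decide (c a)) (hf : Poly f) (hg : Poly g) :
    Poly fun a => if c a then f a else g a := Poly.ite hc hf hg

@[fun_prop] theorem p_deq {f g : α → β} {inst : ∀ a, Decidable (f a = g a)} (hf : Poly f)
    (hg : Poly g) : Poly fun a => decide (f a = g a) := by
  classical
  exact (hf.eq hg).congr fun a => decide_eq_decide.2 Iff.rfl

@[fun_prop] theorem p_dlt {f g : α → ℕ} (hf : Poly f) (hg : Poly g) :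
    Poly fun a => decide (f a < g a) := hf.lt hg

@[fun_prop] theorem p_dle {f g : α → ℕ} (hf : Poly f) (hg : Poly g) :
    Poly fun a => decide (f a ≤ g a) := hf.le hg

@[fun_prop] theorem p_xor {c d : α → Bool} (hc : Poly c) (hd : Poly d) :
    Poly fun a => xor (c a) (d a) := hc.xor hd

@[fun_prop] theorem p_div4 {f : α → ℕ} (hf : Poly f) : Poly fun a => f a / 4 :=
  hf.div2.div2.congr fun a => by omega

@[fun_prop] theorem p_mod4 {f : α → ℕ} (hf : Poly f) : Poly fun a => f a % 4 :=
  (hf.sub (p_div4 hf).double.double).congr fun a => by omega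

@[fun_prop] theorem p_mod2 {f : α → ℕ} (hf : Poly f) : Poly fun a => f a % 2 :=
  (hf.sub hf.div2.double).congr fun a => by omega

@[fun_prop] theorem p_cast {f : α → ℕ} (hf : Poly f) : Poly fun a => ((f a : ℕ) : ℤ) :=
  Ver.p_toZ hf

@[fun_prop] theorem p_toNat {f : α → ℤ} (hf : Poly f) : Poly fun a => (f a).toNat :=
  (Ver.p_parts hf).fst

@[fun_prop] theorem p_idxOf [BEq β] [LawfulBEq β] {f : α → β} {l : α → List β} (hf : Poly f)
    (hl : Poly l) : Poly fun a => (l a).idxOf (f a) := by
  classical
  have key : ∀ (x : β) (r : List β),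
      r.foldr (fun y n => if y = x then 0 else n + 1) 0 = r.idxOf x := by
    intro x r
    induction r with
    | nil => rfl
    | cons y r ih => by_cases h : y = x <;> simp [h, ih]
  refine (Poly.foldr (f := fun a y n => if y = f a then 0 else n + 1) (by fun_prop) hl
    (p_const 0) hl.bd fun a n => ?_).congr fun a => key _ _
  rw [key]
  exact (length_enc_nat_le_self _).trans (List.idxOf_le_length.trans
    ((List.drop_sublist _ _).length_le.trans (length_le_enc _)))

/-! ### Numbers in unary -/

/-- `f` is available in unary. -/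
def Un (f : α → ℕ) : Prop := Poly fun a => List.range (f a)

theorem Un.len {l : α → List β} (hl : Poly l) : Un fun a => (l a).length := hl.rangeLength

theorem Un.of {l : α → List β} (hl : Poly l) {f : α → ℕ} (h : ∀ a, (l a).length = f a) : Un f :=
  (Un.len hl).congr fun a => congrArg List.range (h a)

theorem Un.poly {f : α → ℕ} (h : Un f) : Poly f := (Poly.length h).congr fun _ => List.length_range

theorem Un.const (c : ℕ) : Un fun _ : α => c := p_const _

theorem Un.add {f g : α → ℕ} (hf : Un f) (hg : Un g) : Un fun a => f a + g a :=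
  Un.of (Poly.append hf hg) fun a => by simp

theorem Un.mul {f g : α → ℕ} (hf : Un f) (hg : Un g) : Un fun a => f a * g a :=
  Un.of (Poly.flatMap (g := fun a _ => List.range (g a))
    (p_comp (g := fun a => List.range (g a)) hg Poly.id.fst) hf) fun a => by simp

theorem Un.pow {f : α → ℕ} (hf : Un f) (k : ℕ) : Un fun a => f a ^ k := by
  induction k with
  | zero => exact Un.const 1
  | succ k ih => exact ih.mul hf

theorem Un.pred {f : α → ℕ} (hf : Un f) : Un fun a => f a - 1 :=
  Un.of (Poly.tail hf) fun a => by simp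

/-! ### Chord systems -/

@[fun_prop] theorem p_slotOf {f : α → ℤ} (hf : Poly f) : Poly fun a => slotOf (f a) := by
  unfold slotOf
  fun_prop

section chords

variable [DecidableEq β] {fp : β × Bool → Bool} {sl : α → List (β × Bool)}

theorem p_pt (hp : Poly fp) (hs : Poly sl) {x : α → (β × Bool) × Bool} (hx : Poly x) :
    Poly fun a => pt (sl a) fp (x a) :=
  Poly.congr (f := fun a => if xor (x a).2 (fp (x a).1) then
      -(((sl a).idxOf (x a).1 + 1 : ℕ) : ℤ) else (((sl a).idxOf (x a).1 : ℕ) : ℤ))
    (by fun_prop) fun a => by simp [pt]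

omit [N487b59b3 β] in
theorem natAbs_pt (l : List (β × Bool)) (x : (β × Bool) × Bool) :
    (pt l fp x).natAbs ≤ l.length + 1 := by
  have := List.idxOf_le_length (l := l) (a := x.1)
  unfold pt
  split_ifs <;> omega

variable [Inhabited β]

theorem p_RS (hp : Poly fp) (hs : Poly sl) {p : α → ℤ} (h : Poly p) :
    Poly fun a => RS (sl a) fp (fun _ => true) (p a) := by
  have h0 : Poly fun a => decide (p a < 0) :=
    Poly.congr (f := fun a => decide (0 < (-p a).toNat)) (by fun_prop) fun a =>
      decide_eq_decide.2 (by omega)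
  refine p_pt hp hs ?_
  unfold adj unpt
  fun_prop

theorem p_trav (hp : Poly fp) (hs : Poly sl) :
    Poly fun a => trav ((sl a).length - 1) (RS (sl a) fp fun _ => true) := by
  have h1 : Poly fun q : α × ℕ => ((sl q.1).take (q.2 + 1)).foldl
      (fun p _ => -RS (sl q.1) fp (fun _ => true) p) 0 := by
    have h2 : Poly fun q : α × ℕ => sl q.1 := by fun_prop
    refine Poly.foldl (f := fun (q : α × ℕ) p _ => -RS (sl q.1) fp (fun _ => true) p)
      (Ver.p_neg (p_RS hp (by fun_prop) (by fun_prop))) (by fun_prop) (p_const 0)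
      (((Bd.const 2).mul h2.bd).add (Bd.const 3)) fun q n => ?_
    have h3 : ∀ z : ℤ, z.natAbs ≤ (sl q.1).length + 1 →
        (bitEncode z).length ≤ 2 * (bitEncode (sl q.1)).length + 3 := fun z hz => by
      have a1 := Ver.enc_int_le z
      have a2 := Nat.size_le.2 (Nat.lt_two_pow_self (n := z.natAbs))
      have a3 := length_le_enc (sl q.1)
      omega
    rw [List.foldl_const]
    cases (List.take n (List.take (q.2 + 1) (sl q.1))).length with
    | zero => exact h3 _ (by simp)
    | succ k =>
      rw [Function.iterate_succ_apply']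
      exact h3 _ (by rw [Int.natAbs_neg]; exact natAbs_pt _ _)
  refine (p_map (g := fun a k => ((sl a).take (k + 1)).foldl
    (fun p _ => -RS (sl a) fp (fun _ => true) p) 0) h1 (Un.len hs).pred).congr fun a => ?_
  refine List.map_congr_left fun k hk => ?_
  have h2 : k < (sl a).length - 1 := List.mem_range.1 hk
  rw [List.foldl_const, List.length_take, min_eq_left (by omega)]

end chords

theorem p_expand {mult : α → β → ℕ} {fb : β × Bool → Bool} {bl : α → List (β × Bool)}
    (hm : Poly fun p : α × β => List.range (mult p.1 p.2)) (hf : Poly fb) (hb : Poly bl) :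
    Poly fun a => expand (mult a) fb (bl a) := by
  have h1 : Poly fun p : α × β × Bool => List.range (mult p.1 p.2.1) :=
    hm.comp (f := fun p : α × β × Bool => (p.1, p.2.1)) (by fun_prop)
  unfold expand block
  fun_prop

theorem p_fbx {fb : β × Bool → Bool} (hf : Poly fb) : Poly (fbx fb) := by
  unfold fbx
  fun_prop

@[fun_prop] theorem p_xs {g : α → List ℤ} {k : α → ℕ} (hg : Poly g) (hk : Poly k) :
    Poly fun a => xs (g a) (k a) :=
  Poly.congr (f := fun a => if k a = 0 then 0 else if k a ≤ (g a).length then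
      (g a).getD (k a - 1) 0 else (((g a).length + 1 : ℕ) : ℤ)) (by fun_prop) fun a => by simp [xs]

theorem p_brk {g : α → List ℤ} {i : α → ℕ} {inst : ∀ a, Decidable (i a ∈ Brk (g a))} (hg : Poly g)
    (hi : Poly i) : Poly fun a => decide (i a ∈ Brk (g a)) := by
  have h1 : Poly fun a => List.range ((g a).length + 1) := (Un.len hg).add (Un.const 1)
  refine Poly.congr (f := fun a => decide (i a < (g a).length + 1) &&
    !(List.range ((g a).length + 1)).any fun t =>
      (decide (xs (g a) t = i a) && decide (-xs (g a) (t + 1) = -((i a + 1 : ℕ) : ℤ))) ||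
      (decide (xs (g a) t = -((i a + 1 : ℕ) : ℤ)) && decide (-xs (g a) (t + 1) = i a)))
    (by fun_prop) fun a => ?_
  have e : -((i a + 1 : ℕ) : ℤ) = -(i a : ℤ) - 1 := by omega
  rw [Bool.eq_iff_iff, e]
  simp only [mem_Brk, Adj, Bool.and_eq_true, decide_eq_true_eq, Bool.not_eq_true', ← Bool.not_eq_true,
    List.any_eq_true, List.mem_range, Bool.or_eq_true, Nat.lt_succ_iff]

end Pol

end Pool.Agent.MP_f00251_lc

end MrgPart0

-- ======== part 1: formerly Pool.Agent.MP_f00251_lc.Pol.Main
section MrgPart1

/-!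
The core reduction runs in polynomial time.
-/

set_option autoImplicit false

namespace Pool.Agent.MP_f00251_lc

open Pool.Agent.PolyT Pool.Agent.H82 N487b59b3

namespace Pol

/-- Code of a wire. -/
def eW : Wr → ℕ × ℕ × Bool
  | .s x => (0, x, false)
  | .y x v => (1, x, v)
  | .a j => (2, j, false)
  | .m j => (3, j, false)

/-- Code of the name of a crossing. -/
def eL : Lt → ℕ × ℕ × Bool × Bool
  | .eta x v => (0, x, v, false)
  | .hh x v => (1, x, v, false)
  | .alt k g v => (2, g, v, k)
  | .rho j => (3, j, false, false)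
  | .rhp j => (4, j, false, false)
  | .del j => (5, j, false, false)
  | .dep j => (6, j, false, false)
  | .cm j k => (7, j, k, false)

/-- Code of a class. -/
def eC : CL → ℕ × Wr × ℕ × Lt
  | .lnk w => (0, w, 0, .rho 0)
  | .win j => (1, .m 0, j, .rho 0)
  | .cr e => (2, .m 0, 0, e)

/-- Code of an item. -/
def eI : It Wr Lt → Bool × Lt × Wr × Wr × ℕ × Bool
  | .X e a b => (false, e, a, b, 0, false)
  | .Q j s w => (true, .rho 0, w, w, j, s)

/-- Code of a graph. -/
def eG (G : Gr) : List ℕ × List (ℕ × ℕ) := (List.range G.n, G.E)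

noncomputable instance : N487b59b3 Wr :=
  ofInj eW fun a b h => by cases a <;> cases b <;> simp_all [eW]

noncomputable instance : N487b59b3 Lt :=
  ofInj eL fun a b h => by cases a <;> cases b <;> simp_all [eL]

noncomputable instance : N487b59b3 CL :=
  ofInj eC fun a b h => by cases a <;> cases b <;> simp_all [eC]

noncomputable instance : N487b59b3 (It Wr Lt) :=
  ofInj eI fun a b h => by cases a <;> cases b <;> simp_all [eI]

noncomputable instance : N487b59b3 Gr :=
  ofInj eG fun a b h => by
    cases a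
    cases b
    simpa [eG] using congrArg (fun p => (p.1.length, p.2)) h

variable {α : Type} [N487b59b3 α] {f g : α → ℕ} {k v : α → Bool} {w w' : α → Wr} {l : α → Lt}
  {G : α → Gr}

@[fun_prop] theorem p_s (hf : Poly f) : Poly fun a => Wr.s (f a) :=
  (by fun_prop : Poly fun a => (0, f a, false))

@[fun_prop] theorem p_y (hf : Poly f) (hv : Poly v) : Poly fun a => Wr.y (f a) (v a) :=
  (by fun_prop : Poly fun a => (1, f a, v a))

@[fun_prop] theorem p_a (hf : Poly f) : Poly fun a => Wr.a (f a) :=
  (by fun_prop : Poly fun a => (2, f a, false))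

@[fun_prop] theorem p_m (hf : Poly f) : Poly fun a => Wr.m (f a) :=
  (by fun_prop : Poly fun a => (3, f a, false))

@[fun_prop] theorem p_eta (hf : Poly f) (hv : Poly v) : Poly fun a => Lt.eta (f a) (v a) :=
  (by fun_prop : Poly fun a => (0, f a, v a, false))

@[fun_prop] theorem p_hh (hf : Poly f) (hv : Poly v) : Poly fun a => Lt.hh (f a) (v a) :=
  (by fun_prop : Poly fun a => (1, f a, v a, false))

@[fun_prop] theorem p_alt (hk : Poly k) (hf : Poly f) (hv : Poly v) :
    Poly fun a => Lt.alt (k a) (f a) (v a) := (by fun_prop : Poly fun a => (2, f a, v a, k a))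

@[fun_prop] theorem p_rho (hf : Poly f) : Poly fun a => Lt.rho (f a) :=
  (by fun_prop : Poly fun a => (3, f a, false, false))

@[fun_prop] theorem p_rhp (hf : Poly f) : Poly fun a => Lt.rhp (f a) :=
  (by fun_prop : Poly fun a => (4, f a, false, false))

@[fun_prop] theorem p_del (hf : Poly f) : Poly fun a => Lt.del (f a) :=
  (by fun_prop : Poly fun a => (5, f a, false, false))

@[fun_prop] theorem p_dep (hf : Poly f) : Poly fun a => Lt.dep (f a) :=
  (by fun_prop : Poly fun a => (6, f a, false, false))

@[fun_prop] theorem p_cm (hf : Poly f) (hk : Poly k) : Poly fun a => Lt.cm (f a) (k a) :=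
  (by fun_prop : Poly fun a => (7, f a, k a, false))

@[fun_prop] theorem p_lnk (hw : Poly w) : Poly fun a => (Cl.lnk (w a) : CL) :=
  (by fun_prop : Poly fun a => (0, w a, 0, Lt.rho 0))

@[fun_prop] theorem p_win (hf : Poly f) : Poly fun a => (Cl.win (f a) : CL) :=
  (by fun_prop : Poly fun a => (1, Wr.m 0, f a, Lt.rho 0))

@[fun_prop] theorem p_cr (hl : Poly l) : Poly fun a => (Cl.cr (l a) : CL) :=
  (by fun_prop : Poly fun a => (2, Wr.m 0, 0, l a))

@[fun_prop] theorem p_X (hl : Poly l) (hw : Poly w) (hw' : Poly w') :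
    Poly fun a => It.X (l a) (w a) (w' a) :=
  (by fun_prop : Poly fun a => (false, l a, w a, w' a, 0, false))

@[fun_prop] theorem p_Q (hf : Poly f) (hk : Poly k) (hw : Poly w) :
    Poly fun a => (It.Q (f a) (k a) (w a) : It Wr Lt) :=
  (by fun_prop : Poly fun a => (true, Lt.rho 0, w a, w a, f a, k a))

@[fun_prop] theorem p_eL (hl : Poly l) : Poly fun a => eL (l a) := hl

@[fun_prop] theorem p_eC {c : α → CL} (hc : Poly c) : Poly fun a => eC (c a) := hc

@[fun_prop] theorem p_eI {c : α → It Wr Lt} (hc : Poly c) : Poly fun a => eI (c a) := hc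

theorem u_n (hG : Poly G) : Un fun a => (G a).n := Poly.fst (f := fun a => eG (G a)) hG

@[fun_prop] theorem p_E (hG : Poly G) : Poly fun a => (G a).E :=
  Poly.snd (f := fun a => eG (G a)) hG

theorem u_e (hG : Poly G) : Un fun a => (G a).e := Un.len (p_E hG)

theorem u_q (hG : Poly G) : Un fun a => (G a).q := (Un.const 4).mul ((u_e hG).add (u_n hG))

theorem u_J (hG : Poly G) : Un fun a => (G a).J :=
  (((Un.const 2).mul (u_q hG)).add ((Un.const 4).mul (u_e hG))).add (Un.const 1)

@[fun_prop] theorem p_e (hG : Poly G) : Poly fun a => (G a).e := (u_e hG).poly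

@[fun_prop] theorem p_q (hG : Poly G) : Poly fun a => (G a).q := (u_q hG).poly

@[fun_prop] theorem p_J (hG : Poly G) : Poly fun a => (G a).J := (u_J hG).poly

@[fun_prop] theorem p_rn (hG : Poly G) : Poly fun a => List.range (G a).n := u_n hG

@[fun_prop] theorem p_rq (hG : Poly G) : Poly fun a => List.range (G a).q := u_q hG

@[fun_prop] theorem p_rJ (hG : Poly G) : Poly fun a => List.range (G a).J := u_J hG

@[fun_prop] theorem p_rJ2 (hG : Poly G) : Poly fun a => List.range ((G a).J + 2) :=
  (u_J hG).add (Un.const 2)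

@[fun_prop] theorem p_md (hG : Poly G) (hf : Poly f) : Poly fun a => (G a).md (f a) := by
  unfold Gr.md
  fun_prop

@[fun_prop] theorem p_rep (hG : Poly G) (hf : Poly f) : Poly fun a => (G a).rep (f a) := by
  unfold Gr.rep
  fun_prop

@[fun_prop] theorem p_has (hG : Poly G) (hk : Poly k) (hf : Poly f) :
    Poly fun a => (G a).has (k a) (f a) := by
  unfold Gr.has
  fun_prop

@[fun_prop] theorem p_xv (hG : Poly G) (hk : Poly k) (hf : Poly f) :
    Poly fun a => (G a).xv (k a) (f a) := by
  unfold Gr.xv
  fun_prop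

@[fun_prop] theorem p_act (hG : Poly G) (hk : Poly k) (hf : Poly f) :
    Poly fun a => (G a).act (k a) (f a) := by
  unfold Gr.act
  fun_prop

@[fun_prop] theorem p_items (hG : Poly G) (hk : Poly k) (hv : Poly v) (hf : Poly f) :
    Poly fun a => (G a).items (k a) (v a) (f a) := by
  unfold Gr.items Gr.leaf
  fun_prop

@[fun_prop] theorem p_L0 (hG : Poly G) (hk : Poly k) : Poly fun a => (G a).L0 (k a) := by
  unfold Gr.L0 Gr.Lw Gr.Lv
  fun_prop

@[fun_prop] theorem p_aC (hG : Poly G) (hf : Poly f) : Poly fun a => (G a).aC (f a) := by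
  unfold Gr.aC
  fun_prop

@[fun_prop] theorem p_aP (hG : Poly G) (hf : Poly f) : Poly fun a => (G a).aP (f a) := by
  unfold Gr.aP
  fun_prop

@[fun_prop] theorem p_sv (hG : Poly G) (hk : Poly k) (hf : Poly f) :
    Poly fun a => (G a).sv (k a) (f a) := by
  unfold Gr.sv
  fun_prop

@[fun_prop] theorem p_xsI {c : α → List Cr} (hc : Poly c) : Poly fun a => xsI (c a) := by
  unfold xsI
  fun_prop

@[fun_prop] theorem p_wd (hG : Poly G) (hk : Poly k) : Poly fun a => (G a).wd (k a) := by
  simp only [Gr.wd, word, Gr.secs, List.flatMap_map, Sec.items, Gr.sec, Gr.post]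
  fun_prop

@[fun_prop] theorem p_allcr (hG : Poly G) (hk : Poly k) : Poly fun a => (G a).allcr (k a) := by
  simp only [Gr.allcr, crs, Gr.secs, List.flatMap_map, Gr.sec, Gr.post]
  fun_prop

@[fun_prop] theorem p_ws (hG : Poly G) : Poly fun a => (G a).ws := by
  unfold Gr.ws Gr.core Gr.ys
  fun_prop

@[fun_prop] theorem p_blk {c : α → It Wr Lt} (hw : Poly w) (hc : Poly c) :
    Poly fun a => blk (w a) (c a) :=
  Poly.congr (f := fun a => bif (eI (c a)).1 then
      if w a = (eI (c a)).2.2.1 then [((Cl.win (eI (c a)).2.2.2.2.1 : CL), (eI (c a)).2.2.2.2.2)]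
      else []
    else (if w a = (eI (c a)).2.2.1 then [(Cl.cr (eI (c a)).2.1, false)] else []) ++
      if w a = (eI (c a)).2.2.2.1 then [(Cl.cr (eI (c a)).2.1, true)] else [])
    (by fun_prop) fun a => by cases c a <;> rfl

theorem p_bl (hG : Poly G) (hk : Poly k) : Poly fun a => (G a).bl (k a) := by
  unfold Gr.bl blocks
  fun_prop

theorem p_fbm : Poly (fbm : CL × Bool → Bool) :=
  Poly.congr (f := fun a => if (eC a.1).1 = 2 then false else a.2) (by fun_prop)
    fun ⟨c, _⟩ => by cases c <;> rfl

@[fun_prop] theorem p_rml (hl : Poly l) : Poly fun a => List.range (l a).ml :=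
  Poly.congr (f := fun a => bif decide ((eL (l a)).1 = 2) || decide ((eL (l a)).1 = 7) then [0, 1]
    else [0]) (by fun_prop) fun a => by cases l a <;> rfl

theorem u_sz (hG : Poly G) : Un fun a => (G a).sz :=
  ((Un.len (p_ws hG)).add ((Un.const 2).mul (Un.len (p_allcr hG (p_const _))))).add (Un.const 6)

theorem p_Xl (hG : Poly G) : Poly fun a => (G a).Xl :=
  Poly.congr (f := fun a => ((G a).allcr false).flatMap fun c =>
    (List.range c.1.ml).map fun _ => (Cl.cr c.1 : CL)) (by fun_prop) fun a => by simp [Gr.Xl]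

theorem p_mult (a b : ℕ) (hG : Poly G) :
    Poly fun p : α × CL => List.range ((G p.1).mult a b p.2) := by
  have h0 : Poly fun p : α × CL => G p.1 := by fun_prop
  have h1 : Poly fun p : α × CL =>
      List.range ((G p.1).J * (2 * (G p.1).sz ^ b) + (G p.1).Xl.length) :=
    ((u_J h0).mul ((Un.const 2).mul ((u_sz h0).pow b))).add (Un.len (p_Xl h0))
  have h2 : Poly fun p : α × CL => List.range (2 * (G p.1).sz ^ a) :=
    (Un.const 2).mul ((u_sz h0).pow a)
  have h3 : Poly fun p : α × CL => List.range (eC p.2).2.2.2.ml := by fun_prop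
  exact (p_ite (c := fun p : α × CL => (eC p.2).1 = 0) (by fun_prop) h1
    (p_ite (c := fun p : α × CL => (eC p.2).1 = 1) (by fun_prop) h2 h3)).congr
      fun ⟨_, c⟩ => by cases c <;> rfl

theorem p_mark (a b : ℕ) (hG : Poly G) (hf : Poly f) : Poly fun z => (G z).mark a b (f z) :=
  p_slotOf (p_pt (p_fbx p_fbm) (p_expand (p_mult a b hG) p_fbm (p_bl hG (p_const _)))
    (by fun_prop))

theorem p_perm (a b : ℕ) (hG : Poly G) (hk : Poly k) : Poly fun z => (G z).perm a b (k z) :=
  p_trav (sl := fun z => expand ((G z).mult a b) fbm ((G z).bl (k z))) (p_fbx p_fbm)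
    (p_expand (p_mult a b hG) p_fbm (p_bl hG hk))

theorem p_dec (a b : ℕ) {U : α → List ℕ} {γ : α → List ℤ} (hG : Poly G) (hU : Poly U)
    (hγ : Poly γ) : Poly fun z => (List.range (U z).length).filter
      fun x => decide ((G z).mark a b x ∈ Brk (γ z)) :=
  Poly.filter (c := fun z x => decide ((G z).mark a b x ∈ Brk (γ z)))
    (p_brk (g := fun p : α × ℕ => γ p.1) (i := fun p => (G p.1).mark a b p.2) (by fun_prop)
      (p_mark a b (by fun_prop) (by fun_prop))) hU.rangeLength

theorem p_mk {U : α → List ℕ} {E : α → List (ℕ × ℕ)} (hU : Poly U) (hE : Poly E) :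
    Poly fun z => Gr.mk (U z).length (E z) := hU.rangeLength.pair hE

end Pol

open Pol in
theorem polyStmt : PolyStmt := fun a b =>
  ⟨p_perm a b (p_mk (by fun_prop) (by fun_prop)) (by fun_prop),
    p_dec a b (p_mk (by fun_prop) (by fun_prop)) (by fun_prop) (by fun_prop)⟩

end Pool.Agent.MP_f00251_lc

end MrgPart1

-- marker of a merged file
example : 731051 + 344485 = 731051 + 344485 := rfl
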